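import Mathlib
import Pool.Agent.Cremer51.Defs
import Pool.Agent.Cremer51.Main

/-!
# The hedgehog and the multiplier do not determine a Cremer germ up to topological conjugacy

Witnesses: `f(z) = λ z + z^2` and `g` = the local inverse at `0` of `conj λ z + z^2`, for generic
`λ` on the unit circle. Both have multiplier `λ` and a Cremer point; complex conjugation carries
the two-sided stable sets (and the hedgehogs) of `f` onto those of `g`; every small cycle of `f` is
repelling and every small cycle of `g` is attracting.
-/

set_option autoImplicit false

open Metric Set Filter Topology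
open scoped ComplexConjugate

namespace Pool.Agent.Results.MP_6629d0_an.HedgehogNotComplete

open Pool.Agent.Cremer51

/-- For a residual (comeagre) set of `θ` there are two Cremer germs `f`, `g` with the same
multiplier `e^{2πiθ}`, whose two-sided stable sets and hedgehogs, in all small admissible domains,
are carried to each other by complex conjugation, and which are not topologically locally
conjugate. -/
theorem result : ∀ᶠ θ : ℝ in residual ℝ, ∃ f g : ℂ → ℂ, IsCremer f ∧ IsCremer g ∧
    deriv f 0 = Complex.exp (2 * (Real.pi : ℂ) * Complex.I * (θ : ℂ)) ∧
    deriv g 0 = Complex.exp (2 * (Real.pi : ℂ) * Complex.I * (θ : ℂ)) ∧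
    Admissible f (closedBall 0 (1/10)) ∧
    (∀ U ⊆ ball (0 : ℂ) (1/4), Admissible f U → Admissible g (conj '' U) ∧
      stableSet g (conj '' U) = conj '' stableSet f U ∧
      hedgehog g (conj '' U) = conj '' hedgehog f U ∧
      HomeoGerms (stableSet f U) (stableSet g (conj '' U)) ∧
      HomeoGerms (hedgehog f U) (hedgehog g (conj '' U))) ∧
    (∀ K ⊆ ball (0 : ℂ) (1/4), f '' K = K ↔ g '' (conj '' K) = conj '' K) ∧
    ¬ TopConj f g := by
  filter_upwards [gen_residual] with θ hθ
  exact main θ hθ

end Pool.Agent.Results.MP_6629d0_an.HedgehogNotComplete
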